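import Pool.Agent.Helper60_Diag.Lemmas

/-!
# The completion is a model of the enveloping algebra
-/

set_option autoImplicit false

namespace Pool.Agent.Helper60.Diag

open scoped TensorProduct
open MulOpposite

section Unital

variable {B : Type*} [NormedRing B] [NormedAlgebra ℂ B]

theorem env_smul_mul (r : Env B) (c : ℂ) (x : Env B) : (c • r) * x = c • (r * x) := by
  have h1 : ∀ c : ℂ, ∀ x : Env B, Continuous fun r : Env B => c • (r * x) :=
    fun c x => (continuous_mul_const x).const_smul c
  have h2 : ∀ c : ℂ, ∀ x : Env B, Continuous fun r : Env B => (c • r) * x :=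
    fun c x => (continuous_mul_const x).comp (continuous_const_smul c)
  have h3 : ∀ c : ℂ, ∀ r : Env B, Continuous fun x : Env B => c • (r * x) :=
    fun c r => (continuous_const_mul r).const_smul c
  have h4 : ∀ c : ℂ, ∀ r : Env B, Continuous fun x : Env B => (c • r) * x :=
    fun c r => continuous_const_mul _
  refine env_induction (p := fun r => (c • r) * x = c • (r * x))
    (isClosed_eq (h2 c x) (h1 c x)) ?_ ?_ ?_ r
  · rw [smul_zero, zero_mul, smul_zero]
  · intro r s hr hs
    rw [smul_add, add_mul, hr, hs, add_mul, smul_add]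
  · intro a b
    refine env_induction (p := fun x => (c • el a b) * x = c • (el a b * x))
      (isClosed_eq (h4 c _) (h3 c _)) ?_ ?_ ?_ x
    · rw [mul_zero, mul_zero, smul_zero]
    · intro r s hr hs
      rw [mul_add, hr, hs, mul_add, smul_add]
    · intro a' b'
      rw [← el_smul_left, el_mul, el_mul, smul_mul_assoc, el_smul_left]

noncomputable instance : Algebra ℂ (Env B) :=
  Algebra.ofModule (fun r x y => env_smul_mul x r y) (fun r x y => env_mul_smul x r y)

noncomputable instance : NormedAlgebra ℂ (Env B) where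
  norm_smul_le := norm_smul_le

instance : CompleteSpace (Env B) :=
  inferInstanceAs (CompleteSpace (UniformSpace.Completion (ProjTensor B Bᵐᵒᵖ)))

/-- The canonical algebra homomorphism from the algebraic tensor product. -/
noncomputable def jEnv (B : Type*) [NormedRing B] [NormedAlgebra ℂ B] :
    B ⊗[ℂ] Bᵐᵒᵖ →ₐ[ℂ] Env B :=
  AlgHom.ofLinearMap (toEnv B).toLinearMap rfl toEnv_mul

theorem jEnv_apply (u : B ⊗[ℂ] Bᵐᵒᵖ) : jEnv B u = toEnv B u := rfl

theorem isEnveloping_jEnv : IsEnveloping B (Env B) (jEnv B) where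
  complete := inferInstance
  norm_eq u := norm_toEnv u
  dense := denseRange_toEnv

end Unital

section NonUnital

universe u

variable {A : Type u} [NonUnitalNormedRing A] [NormedSpace ℂ A] [IsScalarTower ℂ A A]
  [SMulCommClass ℂ A A] [CompleteSpace A]

theorem diagIdempotent_of (h : kerSq (WithLp 1 (Unitization ℂ A)) =
    kerPi (WithLp 1 (Unitization ℂ A))) : DiagIdempotent A := by
  refine ⟨Env (WithLp 1 (Unitization ℂ A)), inferInstance, inferInstance, jEnv _, piEnv _,
    isEnveloping_jEnv, fun a b => piEnv_el a b, ?_⟩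
  have h1 : {z : Env (WithLp 1 (Unitization ℂ A)) | ∃ x y, piEnv _ x = 0 ∧ piEnv _ y = 0 ∧
      x * y = z} = {z | ∃ x ∈ kerPi (WithLp 1 (Unitization ℂ A)),
        ∃ y ∈ kerPi (WithLp 1 (Unitization ℂ A)), x * y = z} := by
    ext z
    constructor
    · rintro ⟨x, y, hx, hy, rfl⟩
      exact ⟨x, hx, y, hy, rfl⟩
    · rintro ⟨x, hx, y, hy, rfl⟩
      exact ⟨x, y, hx, hy, rfl⟩
  rw [h1]
  exact h

end NonUnital

end Pool.Agent.Helper60.Diag
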