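import Mathlib

/-!
# Weak amenability and the diagonal ideal of the enveloping algebra

All algebras are complex Banach algebras. The definitions below use only Mathlib notions:
`WithLp 1 (Unitization ℂ A)` is the unitization `A₊ = ℂ ⊕ A` with the norm `‖(t, a)‖ = |t| + ‖a‖`.
-/

set_option autoImplicit false

universe u

namespace Pool.Agent.Helper60.Diag

open scoped TensorProduct
open MulOpposite

/-- The projective norm on the algebraic tensor product `E ⊗ F`:
`projNorm u = inf {∑ ‖xᵢ‖ ‖yᵢ‖ : u = ∑ xᵢ ⊗ yᵢ}`, over all finite representations of `u`. -/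
noncomputable def projNorm {E F : Type*} [SeminormedAddCommGroup E] [NormedSpace ℂ E]
    [SeminormedAddCommGroup F] [NormedSpace ℂ F] (u : E ⊗[ℂ] F) : ℝ :=
  sInf {r : ℝ | ∃ l : List (E × F), (l.map fun p => p.1 ⊗ₜ[ℂ] p.2).sum = u ∧
    (l.map fun p => ‖p.1‖ * ‖p.2‖).sum = r}

/-- Weak amenability of a Banach algebra `A`: every continuous derivation `D : A → A*` is inner.
The module actions on `A*` are `(a · f) (c) = f (c a)` and `(f · a) (c) = f (a c)`; a derivation
satisfies `D (a b) = a · D b + D a · b`, and an inner one is `D a = a · f - f · a`. -/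
def WeaklyAmenable (A : Type*) [NonUnitalNormedRing A] [NormedSpace ℂ A] [IsScalarTower ℂ A A]
    [SMulCommClass ℂ A A] : Prop :=
  ∀ D : A →L[ℂ] (A →L[ℂ] ℂ), (∀ a b c : A, D (a * b) c = D b (c * a) + D a (b * c)) →
    ∃ f : A →L[ℂ] ℂ, ∀ a c : A, D a c = f (c * a) - f (a * c)

/-- Let `B` be a unital Banach algebra. `IsEnveloping B R j` says that the Banach algebra `R`
together with the algebra homomorphism `j : B ⊗ Bᵒᵖ → R` is the projective tensor product
`B ⊗̂ Bᵒᵖ`, i.e. the completion of the algebraic tensor product for the projective norm. Since `j` is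
multiplicative, the product of `R` extends `(a ⊗ b) (c ⊗ d) = a c ⊗ d b`. -/
structure IsEnveloping (B : Type*) [NormedRing B] [NormedAlgebra ℂ B]
    (R : Type*) [NormedRing R] [NormedAlgebra ℂ R] (j : B ⊗[ℂ] Bᵐᵒᵖ →ₐ[ℂ] R) : Prop where
  /-- `R` is a Banach space -/
  complete : CompleteSpace R
  /-- the norm of `R` restricts to the projective norm on the algebraic tensor product -/
  norm_eq : ∀ u, ‖j u‖ = projNorm u
  /-- the algebraic tensor product is dense in `R` -/
  dense : DenseRange j

/-- The diagonal ideal of the Banach algebra `A` is idempotent: for the enveloping algebra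
`R = A₊ ⊗̂ A₊ᵒᵖ` and the bounded linear map `π : R → A₊` with `π (a ⊗ b) = a b`, the diagonal ideal
`I^Δ = ker π` equals the closed linear span of `{x y : x, y ∈ I^Δ}`. (The pair `(R, j)` is unique up
to isometric isomorphism, and `π` is unique by density.) -/
def DiagIdempotent (A : Type u) [NonUnitalNormedRing A] [NormedSpace ℂ A] [IsScalarTower ℂ A A]
    [SMulCommClass ℂ A A] : Prop :=
  ∃ (R : Type u) (_ : NormedRing R) (_ : NormedAlgebra ℂ R)
    (j : WithLp 1 (Unitization ℂ A) ⊗[ℂ] (WithLp 1 (Unitization ℂ A))ᵐᵒᵖ →ₐ[ℂ] R)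
    (π : R →L[ℂ] WithLp 1 (Unitization ℂ A)),
    IsEnveloping (WithLp 1 (Unitization ℂ A)) R j ∧
    (∀ a b : WithLp 1 (Unitization ℂ A), π (j (a ⊗ₜ[ℂ] op b)) = a * b) ∧
    (Submodule.span ℂ {z : R | ∃ x y : R, π x = 0 ∧ π y = 0 ∧ x * y = z}).topologicalClosure
      = LinearMap.ker π.toLinearMap

end Pool.Agent.Helper60.Diag
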