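import Pool.Agent.Helper60_Diag.Proj
import Pool.Agent.Helper60_Diag.Statement

/-!
# Weak amenability, the enveloping algebra and the diagonal ideal
-/

set_option autoImplicit false

namespace Pool.Agent.Helper60.Diag

open scoped TensorProduct
open MulOpposite

section Unital

variable (B : Type*) [NormedRing B] [NormedAlgebra ℂ B]

/-- For a unital Banach algebra `B`, the projective tensor product `B ⊗̂ Bᵒᵖ` : the completion of
the algebraic tensor product `B ⊗ Bᵒᵖ` for the projective norm. Its product extends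
`(a ⊗ b) (c ⊗ d) = a c ⊗ d b`. -/
def Env : Type _ := UniformSpace.Completion (ProjTensor B Bᵐᵒᵖ)

noncomputable instance : NormedRing (Env B) :=
  inferInstanceAs (NormedRing (UniformSpace.Completion (ProjTensor B Bᵐᵒᵖ)))

noncomputable instance : NormedSpace ℂ (Env B) :=
  inferInstanceAs (NormedSpace ℂ (UniformSpace.Completion (ProjTensor B Bᵐᵒᵖ)))

/-- The canonical map from the algebraic tensor product to its completion. -/
noncomputable def toEnv : ProjTensor B Bᵐᵒᵖ →L[ℂ] Env B :=
  (UniformSpace.Completion.toComplL : ProjTensor B Bᵐᵒᵖ →L[ℂ]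
    UniformSpace.Completion (ProjTensor B Bᵐᵒᵖ))

/-- The product map on the algebraic tensor product, `a ⊗ b ↦ a b`, as a linear map. -/
noncomputable def piLin : ProjTensor B Bᵐᵒᵖ →ₗ[ℂ] B :=
  TensorProduct.lift ((LinearMap.mul ℂ B).compl₂
    (MulOpposite.opLinearEquiv ℂ : B ≃ₗ[ℂ] Bᵐᵒᵖ).symm.toLinearMap)

theorem piLin_ptmul (a : B) (b : Bᵐᵒᵖ) : piLin B (ptmul a b) = a * unop b := by
  change (TensorProduct.lift _) (a ⊗ₜ[ℂ] b) = _
  rw [TensorProduct.lift.tmul]
  rfl

/-- The product map on the algebraic tensor product, as a continuous linear map. -/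
noncomputable def piAlg : ProjTensor B Bᵐᵒᵖ →L[ℂ] B :=
  (piLin B).mkContinuous 1 (norm_lift_le _ 1 (fun x y => by
    rw [piLin_ptmul, one_mul]
    exact (norm_mul_le _ _).trans_eq (by rw [norm_unop])) zero_le_one)

variable [CompleteSpace B]

/-- The bounded linear map `B ⊗̂ Bᵒᵖ → B` with `a ⊗ b ↦ a b`. -/
noncomputable def piEnv : Env B →L[ℂ] B := (piAlg B).extend (toEnv B)

/-- The kernel of the product map `B ⊗̂ Bᵒᵖ → B`. -/
noncomputable def kerPi : Submodule ℂ (Env B) := LinearMap.ker (piEnv B).toLinearMap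

end Unital

end Pool.Agent.Helper60.Diag
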