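import Pool.Agent.Helper60_Diag.Lemmas

/-!
# A four-dimensional unital algebra

`Quiv` is the algebra of generalised `2 × 2` matrices `(x₀ x₁; x₂ x₃)` in which the product of two
off-diagonal entries is declared to be zero (the path algebra of the quiver with two vertices and two
arrows in opposite directions, modulo paths of length two).
-/

set_option autoImplicit false

namespace Pool.Agent.Helper60.Diag

/-- The space `ℂ⁴` with the `ℓ¹` norm. -/
def Quiv : Type := PiLp 1 (fun _ : Fin 4 => ℂ)

namespace Quiv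

noncomputable instance : NormedAddCommGroup Quiv :=
  inferInstanceAs (NormedAddCommGroup (PiLp 1 (fun _ : Fin 4 => ℂ)))

noncomputable instance : NormedSpace ℂ Quiv :=
  inferInstanceAs (NormedSpace ℂ (PiLp 1 (fun _ : Fin 4 => ℂ)))

instance : CompleteSpace Quiv :=
  inferInstanceAs (CompleteSpace (PiLp 1 (fun _ : Fin 4 => ℂ)))

instance : FiniteDimensional ℂ Quiv :=
  inferInstanceAs (FiniteDimensional ℂ (PiLp 1 (fun _ : Fin 4 => ℂ)))

/-- The `i`-th coordinate. -/
def co (x : Quiv) (i : Fin 4) : ℂ := (show PiLp 1 (fun _ : Fin 4 => ℂ) from x) i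

/-- The element with given coordinates. -/
def mk (v : Fin 4 → ℂ) : Quiv := WithLp.toLp 1 v

@[simp] theorem co_mk (v : Fin 4 → ℂ) (i : Fin 4) : (mk v).co i = v i := rfl

@[ext] theorem ext {x y : Quiv} (h : ∀ i, x.co i = y.co i) : x = y := by
  apply PiLp.ext
  exact h

@[simp] theorem co_add (x y : Quiv) (i : Fin 4) : (x + y).co i = x.co i + y.co i := rfl
@[simp] theorem co_smul (c : ℂ) (x : Quiv) (i : Fin 4) : (c • x).co i = c * x.co i := rfl
@[simp] theorem co_zero (i : Fin 4) : (0 : Quiv).co i = 0 := rfl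

theorem norm_def (x : Quiv) : ‖x‖ = ‖x.co 0‖ + ‖x.co 1‖ + ‖x.co 2‖ + ‖x.co 3‖ := by
  have h := PiLp.norm_eq_of_L1 (show PiLp 1 (fun _ : Fin 4 => ℂ) from x)
  rw [Fin.sum_univ_four] at h
  exact h

noncomputable instance : Mul Quiv where
  mul x y := mk ![x.co 0 * y.co 0, x.co 0 * y.co 1 + x.co 1 * y.co 3,
    x.co 2 * y.co 0 + x.co 3 * y.co 2, x.co 3 * y.co 3]

noncomputable instance : One Quiv where
  one := mk ![1, 0, 0, 1]

@[simp] theorem co_mul_zero (x y : Quiv) : (x * y).co 0 = x.co 0 * y.co 0 := rfl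
@[simp] theorem co_mul_one (x y : Quiv) :
    (x * y).co 1 = x.co 0 * y.co 1 + x.co 1 * y.co 3 := rfl
@[simp] theorem co_mul_two (x y : Quiv) :
    (x * y).co 2 = x.co 2 * y.co 0 + x.co 3 * y.co 2 := rfl
@[simp] theorem co_mul_three (x y : Quiv) : (x * y).co 3 = x.co 3 * y.co 3 := rfl
@[simp] theorem co_one_zero : (1 : Quiv).co 0 = 1 := rfl
@[simp] theorem co_one_one : (1 : Quiv).co 1 = 0 := rfl
@[simp] theorem co_one_two : (1 : Quiv).co 2 = 0 := rfl
@[simp] theorem co_one_three : (1 : Quiv).co 3 = 1 := rfl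

noncomputable instance instRing : Ring Quiv where
  __ := (inferInstance : AddCommGroup Quiv)
  mul := (· * ·)
  one := 1
  left_distrib a b c := by ext i; fin_cases i <;> simp <;> ring
  right_distrib a b c := by ext i; fin_cases i <;> simp <;> ring
  zero_mul a := by ext i; fin_cases i <;> simp
  mul_zero a := by ext i; fin_cases i <;> simp
  mul_assoc a b c := by ext i; fin_cases i <;> simp <;> ring
  one_mul a := by ext i; fin_cases i <;> simp
  mul_one a := by ext i; fin_cases i <;> simp

noncomputable instance instNormedRing : NormedRing Quiv where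
  __ := instRing
  __ := (inferInstance : NormedAddCommGroup Quiv)
  norm_mul_le x y := by
    simp only [norm_def, co_mul_zero, co_mul_one, co_mul_two, co_mul_three]
    have h1 := norm_add_le (x.co 0 * y.co 1) (x.co 1 * y.co 3)
    have h2 := norm_add_le (x.co 2 * y.co 0) (x.co 3 * y.co 2)
    simp only [norm_mul] at *
    have a0 := norm_nonneg (x.co 0)
    have a1 := norm_nonneg (x.co 1)
    have a2 := norm_nonneg (x.co 2)
    have a3 := norm_nonneg (x.co 3)
    have b0 := norm_nonneg (y.co 0)
    have b1 := norm_nonneg (y.co 1)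
    have b2 := norm_nonneg (y.co 2)
    have b3 := norm_nonneg (y.co 3)
    nlinarith [mul_nonneg a0 b0, mul_nonneg a0 b1, mul_nonneg a0 b2, mul_nonneg a0 b3,
      mul_nonneg a1 b0, mul_nonneg a1 b1, mul_nonneg a1 b2, mul_nonneg a1 b3,
      mul_nonneg a2 b0, mul_nonneg a2 b1, mul_nonneg a2 b2, mul_nonneg a2 b3,
      mul_nonneg a3 b0, mul_nonneg a3 b1, mul_nonneg a3 b2, mul_nonneg a3 b3]

noncomputable instance instAlgebra : Algebra ℂ Quiv :=
  Algebra.ofModule (fun r x y => by ext i; fin_cases i <;> simp <;> ring)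
    (fun r x y => by ext i; fin_cases i <;> simp <;> ring)

noncomputable instance instNormedAlgebra : NormedAlgebra ℂ Quiv where
  __ := instAlgebra
  norm_smul_le := norm_smul_le

end Quiv

end Pool.Agent.Helper60.Diag
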