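import Pool.Agent.Helper60_Diag.Main

/-!
# Weak amenability implies that the diagonal ideal is idempotent
-/

set_option autoImplicit false
set_option linter.unusedSectionVars false

namespace Pool.Agent.Helper60.Diag

open scoped TensorProduct
open MulOpposite

theorem exists_functional {E : Type*} [NormedAddCommGroup E] [NormedSpace ℂ E]
    (S : Submodule ℂ E) (hS : IsClosed (S : Set E)) {x : E} (hx : x ∉ S) :
    ∃ F : E →L[ℂ] ℂ, (∀ y ∈ S, F y = 0) ∧ F x ≠ 0 := by
  have h0 : S.mkQL x ≠ 0 := by
    intro h
    apply hx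
    have : S.mkQ x = 0 := h
    simpa using this
  obtain ⟨g, _, hg⟩ := exists_dual_vector ℂ (S.mkQL x) (norm_ne_zero_iff.2 h0)
  refine ⟨g.comp S.mkQL, ?_, ?_⟩
  · intro y hy
    have : S.mkQL y = 0 := by
      have : S.mkQ y = 0 := by simpa using hy
      exact this
    rw [ContinuousLinearMap.comp_apply, this, map_zero]
  · rw [ContinuousLinearMap.comp_apply, hg]
    simpa using h0

section NonUnital

universe u

variable {A : Type u} [NonUnitalNormedRing A] [NormedSpace ℂ A] [IsScalarTower ℂ A A]
  [SMulCommClass ℂ A A]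

/-- A weakly amenable Banach algebra is essential: products span a dense subspace. -/
theorem dense_of_weaklyAmenable (h : WeaklyAmenable A) :
    (Submodule.span ℂ {z : A | ∃ x y : A, x * y = z}).topologicalClosure = ⊤ := by
  by_contra hne
  obtain ⟨x, hx⟩ : ∃ x : A, x ∉ (Submodule.span ℂ {z : A | ∃ x y : A, x * y = z}).topologicalClosure := by
    by_contra hcon
    push Not at hcon
    exact hne (by ext y; simp [hcon y])
  obtain ⟨f, hf, hfx⟩ := exists_functional _ (Submodule.isClosed_topologicalClosure _) hx
  have hmul : ∀ a b : A, f (a * b) = 0 := fun a b =>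
    hf _ (Submodule.le_topologicalClosure _ (Submodule.subset_span ⟨a, b, rfl⟩))
  obtain ⟨g, hg⟩ := h (ContinuousLinearMap.smulRight f f) (fun a b c => by
    simp [hmul])
  have := hg x x
  simp at this
  exact hfx this

variable [CompleteSpace A]

/-- The commutator `[a, b] ⊗ 1` multiplies the `δ c` into the closed square of the kernel. -/
theorem comm_mul_del_mem {B : Type*} [NormedRing B] [NormedAlgebra ℂ B] [CompleteSpace B]
    (a b c : B) : el (a * b) 1 * del c - el (b * a) 1 * del c ∈ kerSq B := by
  have h : el (a * b) 1 * del c - el (b * a) 1 * del c =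
      del a * (el b 1 * del c) - el b 1 * (del a * del c) := by
    rw [← mul_assoc, ← mul_assoc, ← sub_mul, ← sub_mul]
    congr 1
    unfold del
    rw [sub_mul, mul_sub, el_mul, el_mul, el_mul, el_mul]
    simp only [one_mul, mul_one]
    abel
  rw [h]
  refine Submodule.sub_mem _ ?_ ?_
  · exact mul_mem_kerSq_of (del_mem_kerPi a) (mul_mem_kerPi _ _ (del_mem_kerPi c))
  · exact kerSq_left _ _ (mul_mem_kerSq_of (del_mem_kerPi a) (del_mem_kerPi c))

theorem right_mul_del_mem {B : Type*} [NormedRing B] [NormedAlgebra ℂ B] [CompleteSpace B]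
    (a c : B) : el a 1 * del c - el 1 a * del c ∈ kerSq B := by
  rw [← sub_mul]
  exact mul_mem_kerSq_of (del_mem_kerPi a) (del_mem_kerPi c)

/-- Left multiplication by an element on both sides, for membership. -/
theorem left_sub_mem {B : Type*} [NormedRing B] [NormedAlgebra ℂ B] [CompleteSpace B]
    (r : Env B) {u v : Env B} (h : u - v ∈ kerSq B) : r * u - r * v ∈ kerSq B := by
  rw [← mul_sub]
  exact kerSq_left _ _ h

/-- The bilinear form `(a, b) ↦ F ((b c ⊗ 1) δ a)` as a continuous map. -/
noncomputable def formD (F : Env (WithLp 1 (Unitization ℂ A)) →L[ℂ] ℂ)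
    (c : WithLp 1 (Unitization ℂ A)) : A →L[ℂ] (A →L[ℂ] ℂ) :=
  LinearMap.mkContinuous₂
    (LinearMap.mk₂ ℂ (fun a b : A => F (el (inc b * c) 1 * del (inc a)))
      (fun a a' b => by rw [inc_add, del_add, mul_add, map_add])
      (fun t a b => by rw [inc_smul, del_smul, env_mul_smul, map_smul])
      (fun a b b' => by rw [inc_add, add_mul, el_add_left, add_mul, map_add])
      (fun t a b => by rw [inc_smul, smul_mul_assoc, el_smul_left, env_smul_mul, map_smul]))
    (‖F‖ * (‖c‖ * ‖(1 : WithLp 1 (Unitization ℂ A))‖ *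
      (2 * ‖(1 : WithLp 1 (Unitization ℂ A))‖)))
    (fun a b => by
      rw [LinearMap.mk₂_apply]
      have hinc : ∀ x : A, ‖inc x‖ = ‖x‖ := fun x => WithLp.unitization_norm_inr x
      have h1 : ‖del (inc a)‖ ≤ 2 * ‖(1 : WithLp 1 (Unitization ℂ A))‖ * ‖a‖ := by
        unfold del
        refine (norm_sub_le _ _).trans ?_
        have h1 := norm_el_le (inc a) 1
        have h2 := norm_el_le 1 (inc a)
        rw [hinc] at h1 h2
        linarith
      have h2 : ‖el (inc b * c) 1‖ ≤ ‖b‖ * ‖c‖ * ‖(1 : WithLp 1 (Unitization ℂ A))‖ := by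
        refine (norm_el_le _ _).trans ?_
        refine mul_le_mul_of_nonneg_right ?_ (norm_nonneg _)
        refine (norm_mul_le _ _).trans ?_
        rw [hinc]
      calc ‖F (el (inc b * c) 1 * del (inc a))‖
          ≤ ‖F‖ * ‖el (inc b * c) 1 * del (inc a)‖ := F.le_opNorm _
        _ ≤ ‖F‖ * ((‖b‖ * ‖c‖ * ‖(1 : WithLp 1 (Unitization ℂ A))‖) *
            (2 * ‖(1 : WithLp 1 (Unitization ℂ A))‖ * ‖a‖)) := by
            refine mul_le_mul_of_nonneg_left ?_ (norm_nonneg _)
            exact (norm_mul_le _ _).trans (mul_le_mul h2 h1 (norm_nonneg _) (by positivity))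
        _ = _ := by ring)

theorem formD_apply (F : Env (WithLp 1 (Unitization ℂ A)) →L[ℂ] ℂ)
    (c : WithLp 1 (Unitization ℂ A)) (a b : A) :
    formD F c a b = F (el (inc b * c) 1 * del (inc a)) := rfl

variable {F : Env (WithLp 1 (Unitization ℂ A)) →L[ℂ] ℂ}

theorem F_eq_of_sub (hF : ∀ y ∈ kerSq (WithLp 1 (Unitization ℂ A)), F y = 0)
    {u v : Env (WithLp 1 (Unitization ℂ A))} (h : u - v ∈ kerSq (WithLp 1 (Unitization ℂ A))) :
    F u = F v := by
  have := hF _ h
  rw [map_sub] at this
  exact sub_eq_zero.1 this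

theorem formD_deriv (hF : ∀ y ∈ kerSq (WithLp 1 (Unitization ℂ A)), F y = 0)
    (c : WithLp 1 (Unitization ℂ A)) (a a' b : A) :
    formD F c (a * a') b = formD F c a' (b * a) + formD F c a (a' * b) := by
  rw [formD_apply, formD_apply, formD_apply, inc_mul, inc_mul, inc_mul, del_mul, mul_add, map_add]
  congr 1
  · -- `(b c ⊗ 1) (a ⊗ 1) δ a'` versus `(b a c ⊗ 1) δ a'`
    have h := left_sub_mem (el (inc b) 1) (comm_mul_del_mem c (inc a) (inc a'))
    have e := F_eq_of_sub hF h
    have r1 : el (inc b) 1 * (el (c * inc a) 1 * del (inc a')) =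
        el (inc b * c) 1 * (el (inc a) 1 * del (inc a')) := by
      rw [← mul_assoc, ← mul_assoc, el_mul, el_mul, ← mul_assoc]
    have r2 : el (inc b) 1 * (el (inc a * c) 1 * del (inc a')) =
        el (inc b * inc a * c) 1 * del (inc a') := by
      rw [← mul_assoc, el_mul, mul_one, ← mul_assoc]
    rw [r1, r2] at e
    exact e
  · have h1 := left_sub_mem (el (inc b * c) 1) (right_mul_del_mem (inc a') (inc a))
    have h2 := comm_mul_del_mem (inc b * c) (inc a') (inc a)
    have e1 := F_eq_of_sub hF h1
    have e2 := F_eq_of_sub hF h2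
    rw [← e1, ← mul_assoc, el_mul, mul_one, e2, mul_assoc (inc a')]

theorem diagIdempotent_of_weaklyAmenable (h : WeaklyAmenable A) : DiagIdempotent A := by
  apply diagIdempotent_of
  rw [kerSq_eq_iff]
  by_contra hcon
  push Not at hcon
  obtain ⟨b₀, hb₀⟩ := hcon
  obtain ⟨F, hF, hFb⟩ := exists_functional _ isClosed_kerSq hb₀
  -- antisymmetry of the forms
  have hanti : ∀ (c : WithLp 1 (Unitization ℂ A)) (a b : A),
      formD F c a b = - formD F c b a := by
    intro c a b
    obtain ⟨f, hf⟩ := h (formD F c) (formD_deriv hF c)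
    rw [hf, hf]
    ring
  -- the forms vanish on products
  have hprod : ∀ a a' b : A, F (el (inc b) 1 * del (inc (a * a'))) = 0 := by
    intro a a' b
    have h1 := formD_deriv hF 1 a a' b
    have h2 := hanti (inc b) a' a
    rw [formD_apply, formD_apply, formD_apply, mul_one, mul_one, mul_one] at h1
    rw [formD_apply, formD_apply] at h2
    have h3 := F_eq_of_sub hF (comm_mul_del_mem (inc b) (inc a) (inc a'))
    rw [h1, inc_mul, inc_mul, h3, h2]
    ring
  have hdense := dense_of_weaklyAmenable h
  have hcont : ∀ r : Env (WithLp 1 (Unitization ℂ A)),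
      Continuous fun a : A => F (r * del (inc a)) := by
    intro r
    have h1 : Continuous fun a : A => (inc a : WithLp 1 (Unitization ℂ A)) :=
      WithLp.unitization_isometry_inr.continuous
    have h2 : Continuous fun b : WithLp 1 (Unitization ℂ A) => del b :=
      (delMap (WithLp 1 (Unitization ℂ A))).continuous
    exact F.continuous.comp ((continuous_const_mul r).comp (h2.comp h1))
  have key : ∀ r : Env (WithLp 1 (Unitization ℂ A)),
      (∀ a a' : A, F (r * del (inc (a * a'))) = 0) → ∀ a : A, F (r * del (inc a)) = 0 := by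
    intro r hr a
    have hcl : IsClosed {a : A | F (r * del (inc a)) = 0} :=
      isClosed_singleton.preimage (hcont r)
    have hsub : (Submodule.span ℂ {z : A | ∃ x y : A, x * y = z} : Set A) ⊆
        {a : A | F (r * del (inc a)) = 0} := by
      intro z hz
      induction hz using Submodule.span_induction with
      | mem z hz =>
        obtain ⟨x, y, rfl⟩ := hz
        exact hr x y
      | zero =>
        have : (inc (0 : A) : WithLp 1 (Unitization ℂ A)) = (0 : ℂ) • inc (0 : A) := by
          rw [← inc_smul, zero_smul]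
        change F (r * del (inc 0)) = 0
        rw [this, del_smul, zero_smul, mul_zero, map_zero]
      | add x y _ _ hx hy =>
        change F (r * del (inc (x + y))) = 0
        rw [inc_add, del_add, mul_add, map_add, hx, hy, add_zero]
      | smul c x _ hx =>
        change F (r * del (inc (c • x))) = 0
        rw [inc_smul, del_smul, env_mul_smul, map_smul, hx, smul_zero]
    have hmem : a ∈ closure (Submodule.span ℂ {z : A | ∃ x y : A, x * y = z} : Set A) := by
      have : a ∈ (⊤ : Submodule ℂ A) := Submodule.mem_top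
      rw [← hdense] at this
      exact this
    exact closure_minimal hsub hcl hmem
  have hall : ∀ a b : A, F (el (inc b) 1 * del (inc a)) = 0 := fun a b =>
    key _ (fun x y => hprod x y b) a
  have hdel : ∀ a : A, F (del (inc a)) = 0 := by
    intro a
    have := key 1 (fun x y => by
      rw [one_mul, inc_mul, del_mul, map_add, hall,
        ← F_eq_of_sub hF (right_mul_del_mem (inc y) (inc x)), hall, add_zero]) a
    rwa [one_mul] at this
  apply hFb
  obtain ⟨c, x, rfl⟩ := plus_decomp b₀
  rw [del_add, del_smul, del_one, smul_zero, zero_add]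
  exact hdel x

end NonUnital

end Pool.Agent.Helper60.Diag
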