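import Pool.Agent.Helper60_Diag.Defs

/-!
# Basic properties of the enveloping algebra and of the kernel of the product map
-/

set_option autoImplicit false

namespace Pool.Agent.Helper60.Diag

open scoped TensorProduct
open MulOpposite

section Unital

variable {B : Type*} [NormedRing B] [NormedAlgebra ℂ B]

/-- The elementary tensor `a ⊗ b` in the enveloping algebra. -/
noncomputable def el (a b : B) : Env B := toEnv B (ptmul a (op b))

theorem toEnv_mul (u v : ProjTensor B Bᵐᵒᵖ) : toEnv B (u * v) = toEnv B u * toEnv B v :=
  UniformSpace.Completion.coe_mul u v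

theorem el_mul (a b c d : B) : el a b * el c d = el (a * c) (d * b) := by
  unfold el
  rw [← toEnv_mul, ptmul_mul, op_mul]

theorem el_one : el (1 : B) 1 = 1 := rfl

theorem el_add_left (a a' b : B) : el (a + a') b = el a b + el a' b := by
  unfold el
  rw [ptmul_add_left, map_add]

theorem el_add_right (a b b' : B) : el a (b + b') = el a b + el a b' := by
  unfold el
  rw [op_add, ptmul_add_right, map_add]

theorem el_smul_left (c : ℂ) (a b : B) : el (c • a) b = c • el a b := by
  unfold el
  rw [ptmul_smul_left, map_smul]

theorem el_smul_right (c : ℂ) (a b : B) : el a (c • b) = c • el a b := by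
  unfold el
  rw [op_smul, ptmul_smul_right, map_smul]

theorem el_sub_left (a a' b : B) : el (a - a') b = el a b - el a' b := by
  rw [sub_eq_add_neg, el_add_left, ← neg_one_smul ℂ a', el_smul_left, neg_one_smul,
    sub_eq_add_neg]

theorem el_sub_right (a b b' : B) : el a (b - b') = el a b - el a b' := by
  rw [sub_eq_add_neg, el_add_right, ← neg_one_smul ℂ b', el_smul_right, neg_one_smul,
    sub_eq_add_neg]

theorem norm_toEnv (u : ProjTensor B Bᵐᵒᵖ) : ‖toEnv B u‖ = ‖u‖ :=
  UniformSpace.Completion.norm_coe u

theorem norm_el_le (a b : B) : ‖el a b‖ ≤ ‖a‖ * ‖b‖ := by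
  unfold el
  rw [norm_toEnv]
  exact (norm_ptmul_le _ _).trans_eq (by rw [norm_op])

theorem denseRange_toEnv : DenseRange (toEnv B) :=
  UniformSpace.Completion.denseRange_coe

theorem isUniformInducing_toEnv : IsUniformInducing (toEnv B) :=
  UniformSpace.Completion.isUniformInducing_coe (ProjTensor B Bᵐᵒᵖ)

/-- `δ a = a ⊗ 1 - 1 ⊗ a`. -/
noncomputable def del (a : B) : Env B := el a 1 - el 1 a

theorem del_add (a b : B) : del (a + b) = del a + del b := by
  unfold del
  rw [el_add_left, el_add_right]
  abel

theorem del_sub (a b : B) : del (a - b) = del a - del b := by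
  unfold del
  rw [el_sub_left, el_sub_right]
  abel

theorem del_smul (c : ℂ) (a : B) : del (c • a) = c • del a := by
  unfold del
  rw [el_smul_left, el_smul_right, smul_sub]

theorem del_one : del (1 : B) = 0 := by simp [del]

theorem del_mul_del (a b : B) : del a * del b = el (a * b) 1 - el a b - el b a + el 1 (b * a) := by
  unfold del
  rw [sub_mul, mul_sub, mul_sub, el_mul, el_mul, el_mul, el_mul]
  simp only [one_mul, mul_one]
  abel

/-- `δ (a b - b a) = δ a * δ b - δ b * δ a`. -/
theorem del_comm (a b : B) : del (a * b - b * a) = del a * del b - del b * del a := by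
  rw [del_mul_del, del_mul_del, del_sub]
  unfold del
  abel

theorem del_mul (a b : B) : del (a * b) = el a 1 * del b + el 1 b * del a := by
  unfold del
  rw [mul_sub, mul_sub, el_mul, el_mul, el_mul, el_mul]
  simp only [one_mul, mul_one]
  abel

/-- Continuous linear map `a ↦ a ⊗ 1`. -/
noncomputable def leftMap (B : Type*) [NormedRing B] [NormedAlgebra ℂ B] : B →L[ℂ] Env B :=
  LinearMap.mkContinuous
    { toFun := fun a => el a 1
      map_add' := fun a a' => el_add_left a a' 1
      map_smul' := fun c a => el_smul_left c a 1 } ‖(1 : B)‖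
    (fun a => (norm_el_le a 1).trans_eq (mul_comm _ _))

theorem leftMap_apply (a : B) : leftMap B a = el a 1 := rfl

/-- Continuous linear map `a ↦ δ a`. -/
noncomputable def delMap (B : Type*) [NormedRing B] [NormedAlgebra ℂ B] : B →L[ℂ] Env B :=
  LinearMap.mkContinuous
    { toFun := fun a => del a
      map_add' := fun a a' => del_add a a'
      map_smul' := fun c a => del_smul c a } (2 * ‖(1 : B)‖)
    (fun a => by
      change ‖del a‖ ≤ _
      unfold del
      refine (norm_sub_le _ _).trans ?_
      have h1 := norm_el_le a 1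
      have h2 := norm_el_le 1 a
      linarith)

theorem delMap_apply (a : B) : delMap B a = del a := rfl

/-- Induction principle: a closed additive property which holds for elementary tensors holds
everywhere. -/
theorem env_induction {p : Env B → Prop} (hcl : IsClosed {u | p u}) (h0 : p 0)
    (hadd : ∀ u v, p u → p v → p (u + v)) (hel : ∀ a b : B, p (el a b)) (u : Env B) : p u := by
  have h1 : ∀ w : ProjTensor B Bᵐᵒᵖ, p (toEnv B w) := by
    intro w
    obtain ⟨l, rfl⟩ := exists_tensorSum w
    induction l with
    | nil => simpa [tensorSum] using h0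
    | cons q l ih =>
      have : tensorSum (q :: l) = ptmul q.1 q.2 + tensorSum l := by simp [tensorSum]
      rw [this, map_add]
      exact hadd _ _ (by simpa [el] using hel q.1 (unop q.2)) ih
  exact denseRange_toEnv.induction_on u hcl h1

theorem env_mul_smul (r : Env B) (c : ℂ) (x : Env B) : r * c • x = c • (r * x) := by
  have h1 : ∀ c : ℂ, ∀ x : Env B, Continuous fun r : Env B => c • (r * x) :=
    fun c x => (continuous_mul_const x).const_smul c
  have h2 : ∀ c : ℂ, ∀ x : Env B, Continuous fun r : Env B => r * (c • x) :=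
    fun c x => continuous_mul_const (c • x)
  have h3 : ∀ c : ℂ, ∀ r : Env B, Continuous fun x : Env B => c • (r * x) :=
    fun c r => (continuous_const_mul r).const_smul c
  have h4 : ∀ c : ℂ, ∀ r : Env B, Continuous fun x : Env B => r * (c • x) :=
    fun c r => (continuous_const_mul r).comp (continuous_const_smul c)
  refine env_induction (p := fun r => r * c • x = c • (r * x))
    (isClosed_eq (h2 c x) (h1 c x)) ?_ ?_ ?_ r
  · rw [zero_mul, zero_mul, smul_zero]
  · intro r s hr hs
    rw [add_mul, hr, hs, add_mul, smul_add]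
  · intro a b
    refine env_induction (p := fun x => el a b * c • x = c • (el a b * x))
      (isClosed_eq (h4 c _) (h3 c _)) ?_ ?_ ?_ x
    · rw [smul_zero, mul_zero, smul_zero]
    · intro r s hr hs
      rw [smul_add, mul_add, hr, hs, mul_add, smul_add]
    · intro a' b'
      rw [← el_smul_left, el_mul, el_mul, mul_smul_comm, el_smul_left]

variable [CompleteSpace B]

theorem piEnv_toEnv (u : ProjTensor B Bᵐᵒᵖ) : piEnv B (toEnv B u) = piLin B u :=
  ContinuousLinearMap.extend_eq (piAlg B) denseRange_toEnv isUniformInducing_toEnv u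

theorem piEnv_el (a b : B) : piEnv B (el a b) = a * b := by
  unfold el
  rw [piEnv_toEnv, piLin_ptmul, unop_op]

theorem mem_kerPi {u : Env B} : u ∈ kerPi B ↔ piEnv B u = 0 := Iff.rfl

theorem isClosed_kerPi : IsClosed (kerPi B : Set (Env B)) :=
  isClosed_singleton.preimage (piEnv B).continuous

theorem del_mem_kerPi (a : B) : del a ∈ kerPi B := by
  rw [mem_kerPi]
  unfold del
  rw [map_sub, piEnv_el, piEnv_el, one_mul, mul_one, sub_self]

theorem piEnv_el_mul (a b : B) (u : Env B) : piEnv B (el a b * u) = a * piEnv B u * b := by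
  refine env_induction (p := fun u => piEnv B (el a b * u) = a * piEnv B u * b) ?_ ?_ ?_ ?_ u
  · exact isClosed_eq (by fun_prop) (by fun_prop)
  · simp
  · intro u v hu hv
    rw [mul_add, map_add, map_add, hu, hv, mul_add, add_mul]
  · intro c d
    rw [el_mul, piEnv_el, piEnv_el]
    simp only [mul_assoc]

/-- The kernel of the product map is a left ideal. -/
theorem mul_mem_kerPi (r u : Env B) (hu : u ∈ kerPi B) : r * u ∈ kerPi B := by
  refine env_induction (p := fun r => r * u ∈ kerPi B) ?_ ?_ ?_ ?_ r
  · exact isClosed_kerPi.preimage (continuous_mul_const u)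
  · simp
  · intro r s hr hs
    rw [add_mul]
    exact Submodule.add_mem _ hr hs
  · intro a b
    rw [mem_kerPi, piEnv_el_mul, mem_kerPi.1 hu]
    simp

/-- A closed left ideal containing all `δ a` contains the kernel of the product map. -/
theorem kerPi_le (J : Submodule ℂ (Env B)) (hcl : IsClosed (J : Set (Env B)))
    (hleft : ∀ r u, u ∈ J → r * u ∈ J) (hdel : ∀ a : B, del a ∈ J) : kerPi B ≤ J := by
  have key : ∀ u : Env B, u - el (piEnv B u) 1 ∈ J := by
    intro u
    refine env_induction (p := fun u => u - el (piEnv B u) 1 ∈ J) ?_ ?_ ?_ ?_ u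
    · refine hcl.preimage ?_
      have : Continuous fun u : Env B => u - leftMap B (piEnv B u) := by fun_prop
      exact this
    · have h0 : el (0 : B) 1 = 0 := by simpa using el_smul_left (0 : ℂ) (0 : B) 1
      simp [h0]
    · intro u v hu hv
      have := Submodule.add_mem _ hu hv
      rw [map_add, el_add_left]
      convert this using 1
      abel
    · intro a b
      rw [piEnv_el]
      have h1 : el a b - el (a * b) 1 = (-1 : ℂ) • (el a 1 * del b) := by
        unfold del
        rw [mul_sub, el_mul, el_mul, mul_one, mul_one, mul_one, neg_one_smul]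
        abel
      rw [h1]
      exact Submodule.smul_mem _ _ (hleft _ _ (hdel b))
  intro u hu
  have h1 := key u
  have h0 : el (0 : B) 1 = 0 := by simpa using el_smul_left (0 : ℂ) (0 : B) 1
  rw [mem_kerPi.1 hu, h0, sub_zero] at h1
  exact h1

/-- The closed span of products of two elements of the kernel of the product map. -/
noncomputable def kerSq (B : Type*) [NormedRing B] [NormedAlgebra ℂ B] [CompleteSpace B] :
    Submodule ℂ (Env B) :=
  (Submodule.span ℂ {z : Env B | ∃ x ∈ kerPi B, ∃ y ∈ kerPi B, x * y = z}).topologicalClosure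

theorem kerSq_le : kerSq B ≤ kerPi B := by
  refine Submodule.topologicalClosure_minimal _ ?_ isClosed_kerPi
  rw [Submodule.span_le]
  rintro z ⟨x, _, y, hy, rfl⟩
  exact mul_mem_kerPi x y hy

theorem isClosed_kerSq : IsClosed (kerSq B : Set (Env B)) :=
  Submodule.isClosed_topologicalClosure _

theorem mul_mem_kerSq_of {x y : Env B} (hx : x ∈ kerPi B) (hy : y ∈ kerPi B) :
    x * y ∈ kerSq B :=
  Submodule.le_topologicalClosure _ (Submodule.subset_span ⟨x, hx, y, hy, rfl⟩)

theorem kerSq_left (r u : Env B) (hu : u ∈ kerSq B) : r * u ∈ kerSq B := by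
  have h1 : ∀ u ∈ Submodule.span ℂ {z : Env B | ∃ x ∈ kerPi B, ∃ y ∈ kerPi B, x * y = z},
      r * u ∈ kerSq B := by
    intro u hu
    induction hu using Submodule.span_induction with
    | mem z hz =>
      obtain ⟨x, hx, y, hy, rfl⟩ := hz
      rw [← mul_assoc]
      exact mul_mem_kerSq_of (mul_mem_kerPi r x hx) hy
    | zero => simp
    | add x y _ _ hx hy =>
      rw [mul_add]
      exact Submodule.add_mem _ hx hy
    | smul c x _ hx =>
      have : r * c • x = c • (r * x) := env_mul_smul r c x
      rw [this]
      exact Submodule.smul_mem _ _ hx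
  have h2 : (kerSq B : Set (Env B)) ⊆ (fun u => r * u) ⁻¹' (kerSq B : Set (Env B)) := by
    have : IsClosed ((fun u => r * u) ⁻¹' (kerSq B : Set (Env B))) :=
      isClosed_kerSq.preimage (continuous_const_mul r)
    refine closure_minimal (fun u hu => h1 u hu) this
  exact h2 hu

/-- Criterion for idempotency. -/
theorem kerSq_eq_iff : kerSq B = kerPi B ↔ ∀ a : B, del a ∈ kerSq B := by
  constructor
  · intro h a
    rw [h]
    exact del_mem_kerPi a
  · intro h
    exact le_antisymm kerSq_le (kerPi_le _ isClosed_kerSq kerSq_left h)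

end Unital

end Pool.Agent.Helper60.Diag
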