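import Pool.Agent.Helper60_Diag.Example
import Pool.Agent.Helper60_Diag.Bridge

/-!
# The diagonal ideal of `Quiv` is idempotent, but `Quiv` is not weakly amenable
-/

set_option autoImplicit false

namespace Pool.Agent.Helper60.Diag

section Unital

variable {B : Type*} [NormedRing B] [NormedAlgebra ℂ B] [CompleteSpace B]

theorem del_comm_mem (a b : B) : del (a * b - b * a) ∈ kerSq B := by
  rw [del_comm]
  exact Submodule.sub_mem _ (mul_mem_kerSq_of (del_mem_kerPi a) (del_mem_kerPi b))
    (mul_mem_kerSq_of (del_mem_kerPi b) (del_mem_kerPi a))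

theorem del_idem_mem {e : B} (he : e * e = e) : del e ∈ kerSq B := by
  have h : del e = del e * (del e * del e) := by
    rw [del_mul_del, he]
    unfold del
    simp only [sub_mul, mul_sub, mul_add, el_mul, one_mul, mul_one, he]
    abel
  rw [h]
  exact mul_mem_kerSq_of (del_mem_kerPi e) (mul_mem_kerPi _ _ (del_mem_kerPi e))

end Unital

section NonUnital

variable {A : Type*} [NonUnitalNormedRing A] [NormedSpace ℂ A] [IsScalarTower ℂ A A]
  [SMulCommClass ℂ A A]

/-- The inclusion of `A` in its unitization. -/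
noncomputable def inc (x : A) : WithLp 1 (Unitization ℂ A) := WithLp.toLp 1 (x : Unitization ℂ A)

theorem inc_mul (x y : A) : inc (x * y) = inc x * inc y := by
  apply WithLp.ofLp_injective
  simp [inc]

theorem inc_add (x y : A) : inc (x + y) = inc x + inc y := by
  apply WithLp.ofLp_injective
  simp [inc]

theorem inc_sub (x y : A) : inc (x - y) = inc x - inc y := by
  apply WithLp.ofLp_injective
  simp [inc]

theorem inc_smul (c : ℂ) (x : A) : inc (c • x) = c • inc x := by
  apply WithLp.ofLp_injective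
  simp [inc]

theorem plus_decomp (a : WithLp 1 (Unitization ℂ A)) :
    ∃ (c : ℂ) (x : A), a = c • (1 : WithLp 1 (Unitization ℂ A)) + inc x := by
  refine ⟨(WithLp.ofLp a).fst, (WithLp.ofLp a).snd, ?_⟩
  apply WithLp.ofLp_injective
  have h1 : WithLp.ofLp (1 : WithLp 1 (Unitization ℂ A)) = 1 := rfl
  ext
  · simp [inc, h1]
  · simp [inc, h1]

end NonUnital

/-- The diagonal ideal of `Quiv` is idempotent. -/
theorem quiv_diagIdempotent : DiagIdempotent Quiv := by
  apply diagIdempotent_of
  rw [kerSq_eq_iff]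
  intro a
  obtain ⟨c, x, rfl⟩ := plus_decomp a
  rw [del_add, del_smul, del_one, smul_zero, zero_add]
  set e : Quiv := Quiv.mk ![1, 0, 0, 0] with he
  set α : Quiv := Quiv.mk ![0, 1, 0, 0] with hα
  set β : Quiv := Quiv.mk ![0, 0, 1, 0] with hβ
  set f : Quiv := Quiv.mk ![0, 0, 0, 1] with hf
  have hx : x = x.co 0 • e + x.co 1 • (e * α - α * e) + x.co 2 • (f * β - β * f) + x.co 3 • f := by
    have hs : ∀ (u v : Quiv) (i : Fin 4), (u - v).co i = u.co i - v.co i := fun _ _ _ => rfl
    ext i
    fin_cases i <;> simp [he, hα, hβ, hf, hs]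
  have hee : inc e * inc e = inc e := by
    rw [← inc_mul]
    congr 1
    ext i
    fin_cases i <;> simp [he]
  have hff : inc f * inc f = inc f := by
    rw [← inc_mul]
    congr 1
    ext i
    fin_cases i <;> simp [hf]
  rw [hx]
  simp only [inc_add, inc_smul, inc_sub, inc_mul, del_add, del_smul]
  refine Submodule.add_mem _ (Submodule.add_mem _ (Submodule.add_mem _ ?_ ?_) ?_) ?_
  · exact Submodule.smul_mem _ _ (del_idem_mem hee)
  · exact Submodule.smul_mem _ _ (del_comm_mem _ _)
  · exact Submodule.smul_mem _ _ (del_comm_mem _ _)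
  · exact Submodule.smul_mem _ _ (del_idem_mem hff)

/-- The derivation `D x y = x₁ y₂ - x₂ y₁`. -/
noncomputable def quivD : Quiv →L[ℂ] (Quiv →L[ℂ] ℂ) :=
  LinearMap.mkContinuous₂
    (LinearMap.mk₂ ℂ (fun x y : Quiv => x.co 1 * y.co 2 - x.co 2 * y.co 1)
      (fun x x' y => by simp; ring) (fun c x y => by simp; ring)
      (fun x y y' => by simp; ring) (fun c x y => by simp; ring)) 1
    (fun x y => by
      rw [LinearMap.mk₂_apply, one_mul]
      refine (norm_sub_le _ _).trans ?_
      rw [norm_mul, norm_mul, Quiv.norm_def, Quiv.norm_def]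
      have a0 := norm_nonneg (x.co 0)
      have a1 := norm_nonneg (x.co 1)
      have a2 := norm_nonneg (x.co 2)
      have a3 := norm_nonneg (x.co 3)
      have b0 := norm_nonneg (y.co 0)
      have b1 := norm_nonneg (y.co 1)
      have b2 := norm_nonneg (y.co 2)
      have b3 := norm_nonneg (y.co 3)
      nlinarith [mul_nonneg a0 b0, mul_nonneg a0 b1, mul_nonneg a0 b2, mul_nonneg a0 b3,
        mul_nonneg a1 b0, mul_nonneg a1 b1, mul_nonneg a1 b2, mul_nonneg a1 b3,
        mul_nonneg a2 b0, mul_nonneg a2 b1, mul_nonneg a2 b2, mul_nonneg a2 b3,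
        mul_nonneg a3 b0, mul_nonneg a3 b1, mul_nonneg a3 b2, mul_nonneg a3 b3])

theorem quivD_apply (x y : Quiv) : quivD x y = x.co 1 * y.co 2 - x.co 2 * y.co 1 := rfl

/-- `Quiv` is not weakly amenable. -/
theorem quiv_not_weaklyAmenable : ¬ WeaklyAmenable Quiv := by
  intro h
  obtain ⟨f, hf⟩ := h quivD (fun a b c => by
    simp only [quivD_apply, Quiv.co_mul_one, Quiv.co_mul_two]
    ring)
  have h1 := hf (Quiv.mk ![0, 1, 0, 0]) (Quiv.mk ![0, 0, 1, 0])
  have h2 : (Quiv.mk ![0, 0, 1, 0] : Quiv) * Quiv.mk ![0, 1, 0, 0] = 0 := by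
    ext i
    fin_cases i <;> simp
  have h3 : (Quiv.mk ![0, 1, 0, 0] : Quiv) * Quiv.mk ![0, 0, 1, 0] = 0 := by
    ext i
    fin_cases i <;> simp
  rw [h2, h3, quivD_apply] at h1
  simp at h1

end Pool.Agent.Helper60.Diag
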