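import Mathlib

/-!
# The projective tensor product of (semi)normed spaces and of Banach algebras

`ProjTensor E F` is the algebraic tensor product `E ⊗ F` over `ℂ` carrying the projective seminorm;
its completion is the projective tensor product.
-/

set_option autoImplicit false
set_option linter.unusedSectionVars false

namespace Pool.Agent.Helper60.Diag

open scoped TensorProduct

section Def

variable (E F : Type*) [SeminormedAddCommGroup E] [NormedSpace ℂ E]
  [SeminormedAddCommGroup F] [NormedSpace ℂ F]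

/-- The algebraic tensor product `E ⊗ F` over `ℂ`; it will carry the projective seminorm. -/
def ProjTensor : Type _ := E ⊗[ℂ] F

noncomputable instance : AddCommGroup (ProjTensor E F) :=
  inferInstanceAs (AddCommGroup (E ⊗[ℂ] F))

noncomputable instance : Module ℂ (ProjTensor E F) :=
  inferInstanceAs (Module ℂ (E ⊗[ℂ] F))

variable {E F}

/-- The elementary tensor `x ⊗ y`. -/
def ptmul (x : E) (y : F) : ProjTensor E F := x ⊗ₜ[ℂ] y

/-- The tensor represented by a finite list of pairs, `∑ xᵢ ⊗ yᵢ`. -/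
noncomputable def tensorSum (l : List (E × F)) : ProjTensor E F := (l.map fun p => ptmul p.1 p.2).sum

/-- The cost `∑ ‖xᵢ‖ ‖yᵢ‖` of a finite list of pairs. -/
noncomputable def cost (l : List (E × F)) : ℝ := (l.map fun p => ‖p.1‖ * ‖p.2‖).sum

/-- The projective seminorm `‖u‖ = inf {∑ ‖xᵢ‖ ‖yᵢ‖ : u = ∑ xᵢ ⊗ yᵢ}`. -/
noncomputable instance : Norm (ProjTensor E F) where
  norm u := sInf {r : ℝ | ∃ l : List (E × F), tensorSum l = u ∧ cost l = r}

theorem cost_nonneg (l : List (E × F)) : 0 ≤ cost l := by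
  unfold cost
  apply List.sum_nonneg
  intro a ha
  simp only [List.mem_map] at ha
  obtain ⟨p, _, rfl⟩ := ha
  positivity

theorem tensorSum_append (l m : List (E × F)) :
    tensorSum (l ++ m) = tensorSum l + tensorSum m := by
  simp [tensorSum]

theorem cost_append (l m : List (E × F)) : cost (l ++ m) = cost l + cost m := by
  simp [cost]

theorem ptmul_add_left (x x' : E) (y : F) : ptmul (x + x') y = ptmul x y + ptmul x' y :=
  TensorProduct.add_tmul x x' y

theorem ptmul_add_right (x : E) (y y' : F) : ptmul x (y + y') = ptmul x y + ptmul x y' :=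
  TensorProduct.tmul_add x y y'

theorem ptmul_smul_left (c : ℂ) (x : E) (y : F) : ptmul (c • x) y = c • ptmul x y :=
  TensorProduct.smul_tmul' c x y |>.symm

theorem ptmul_smul_right (c : ℂ) (x : E) (y : F) : ptmul x (c • y) = c • ptmul x y :=
  TensorProduct.tmul_smul c x y

theorem exists_tensorSum (u : ProjTensor E F) : ∃ l : List (E × F), tensorSum l = u := by
  induction u using TensorProduct.induction_on with
  | zero => exact ⟨[], rfl⟩
  | tmul x y =>
    refine ⟨[(x, y)], ?_⟩
    change tensorSum [(x, y)] = ptmul x y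
    simp [tensorSum]
  | add u v hu hv =>
    obtain ⟨l, hl⟩ := hu
    obtain ⟨m, hm⟩ := hv
    refine ⟨l ++ m, ?_⟩
    rw [tensorSum_append, hl, hm]
    rfl

theorem norm_set_bddBelow (u : ProjTensor E F) :
    BddBelow {r : ℝ | ∃ l : List (E × F), tensorSum l = u ∧ cost l = r} := by
  refine ⟨0, ?_⟩
  rintro r ⟨l, _, rfl⟩
  exact cost_nonneg l

theorem norm_le_cost {u : ProjTensor E F} {l : List (E × F)} (h : tensorSum l = u) :
    ‖u‖ ≤ cost l :=
  csInf_le (norm_set_bddBelow u) ⟨l, h, rfl⟩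

theorem proj_norm_nonneg (u : ProjTensor E F) : 0 ≤ ‖u‖ := by
  apply Real.sInf_nonneg
  rintro r ⟨l, _, rfl⟩
  exact cost_nonneg l

theorem exists_cost_lt (u : ProjTensor E F) {ε : ℝ} (hε : 0 < ε) :
    ∃ l : List (E × F), tensorSum l = u ∧ cost l < ‖u‖ + ε := by
  have hne : ({r : ℝ | ∃ l : List (E × F), tensorSum l = u ∧ cost l = r}).Nonempty := by
    obtain ⟨l, hl⟩ := exists_tensorSum u
    exact ⟨_, l, hl, rfl⟩
  have hlt : sInf {r : ℝ | ∃ l : List (E × F), tensorSum l = u ∧ cost l = r} < ‖u‖ + ε :=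
    lt_add_of_pos_right _ hε
  obtain ⟨r, ⟨l, hl, rfl⟩, hr⟩ := exists_lt_of_csInf_lt hne hlt
  exact ⟨l, hl, hr⟩

theorem tensorSum_smul (c : ℂ) (l : List (E × F)) :
    tensorSum (l.map fun p => (c • p.1, p.2)) = c • tensorSum l := by
  induction l with
  | nil => simp [tensorSum]
  | cons p l ih =>
    simp only [tensorSum, List.map_cons, List.sum_cons, smul_add] at ih ⊢
    rw [ih, ptmul_smul_left]

theorem cost_smul (c : ℂ) (l : List (E × F)) :
    cost (l.map fun p => (c • p.1, p.2)) = ‖c‖ * cost l := by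
  induction l with
  | nil => simp [cost]
  | cons p l ih =>
    simp only [cost, List.map_cons, List.sum_cons] at ih ⊢
    rw [ih, norm_smul]
    ring

theorem proj_norm_smul_le (c : ℂ) (u : ProjTensor E F) : ‖c • u‖ ≤ ‖c‖ * ‖u‖ := by
  apply le_of_forall_pos_le_add
  intro ε hε
  obtain ⟨l, hl, hlt⟩ := exists_cost_lt u (ε := ε / (‖c‖ + 1)) (by positivity)
  have h1 : ‖c • u‖ ≤ ‖c‖ * cost l := by
    rw [← cost_smul]
    apply norm_le_cost
    rw [tensorSum_smul, hl]
  have h2 : ‖c‖ * (ε / (‖c‖ + 1)) ≤ ε := by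
    rw [mul_div_assoc', div_le_iff₀ (by positivity)]
    nlinarith [norm_nonneg c]
  have h3 : ‖c‖ * cost l ≤ ‖c‖ * (‖u‖ + ε / (‖c‖ + 1)) :=
    mul_le_mul_of_nonneg_left hlt.le (norm_nonneg c)
  nlinarith

theorem proj_norm_add_le (u v : ProjTensor E F) : ‖u + v‖ ≤ ‖u‖ + ‖v‖ := by
  apply le_of_forall_pos_le_add
  intro ε hε
  obtain ⟨l, hl, hlt⟩ := exists_cost_lt u (ε := ε / 2) (by positivity)
  obtain ⟨m, hm, hmt⟩ := exists_cost_lt v (ε := ε / 2) (by positivity)
  have h1 : ‖u + v‖ ≤ cost (l ++ m) := norm_le_cost (by rw [tensorSum_append, hl, hm])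
  rw [cost_append] at h1
  linarith

theorem proj_norm_core : SeminormedSpace.Core ℂ (ProjTensor E F) where
  norm_nonneg := proj_norm_nonneg
  norm_smul c u := by
    apply le_antisymm (proj_norm_smul_le c u)
    rcases eq_or_ne c 0 with rfl | hc
    · simp [proj_norm_nonneg]
    · have h := proj_norm_smul_le c⁻¹ (c • u)
      rw [inv_smul_smul₀ hc, norm_inv] at h
      have hc' : 0 < ‖c‖ := norm_pos_iff.2 hc
      calc ‖c‖ * ‖u‖ ≤ ‖c‖ * (‖c‖⁻¹ * ‖c • u‖) := mul_le_mul_of_nonneg_left h hc'.le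
        _ = ‖c • u‖ := by field_simp
  norm_triangle := proj_norm_add_le

noncomputable instance : SeminormedAddCommGroup (ProjTensor E F) :=
  SeminormedAddCommGroup.ofCore proj_norm_core

noncomputable instance : NormedSpace ℂ (ProjTensor E F) where
  norm_smul_le := proj_norm_smul_le

theorem norm_ptmul_le (x : E) (y : F) : ‖ptmul x y‖ ≤ ‖x‖ * ‖y‖ := by
  have := norm_le_cost (u := ptmul x y) (l := [(x, y)]) (by simp [tensorSum])
  simpa [cost] using this

/-- A bilinear map bounded on elementary tensors induces a linear map bounded for the projective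
seminorm. -/
theorem norm_lift_le {G : Type*} [SeminormedAddCommGroup G] [NormedSpace ℂ G]
    (f : ProjTensor E F →ₗ[ℂ] G) (C : ℝ) (hf : ∀ x y, ‖f (ptmul x y)‖ ≤ C * (‖x‖ * ‖y‖))
    (hC : 0 ≤ C) (u : ProjTensor E F) : ‖f u‖ ≤ C * ‖u‖ := by
  have key : ∀ l : List (E × F), ‖f (tensorSum l)‖ ≤ C * cost l := by
    intro l
    induction l with
    | nil => simp [tensorSum, cost]
    | cons p l ih =>
      simp only [tensorSum, cost, List.map_cons, List.sum_cons, map_add, mul_add] at ih ⊢
      exact (norm_add_le _ _).trans (add_le_add (hf _ _) ih)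
  apply le_of_forall_pos_le_add
  intro ε hε
  obtain ⟨l, hl, hlt⟩ := exists_cost_lt u (ε := ε / (C + 1)) (by positivity)
  have h1 := key l
  rw [hl] at h1
  have h2 : C * (ε / (C + 1)) ≤ ε := by
    rw [mul_div_assoc', div_le_iff₀ (by positivity)]
    nlinarith
  have h3 : C * cost l ≤ C * (‖u‖ + ε / (C + 1)) := mul_le_mul_of_nonneg_left hlt.le hC
  nlinarith

end Def

section Alg

variable (B C : Type*) [NormedRing B] [NormedAlgebra ℂ B] [NormedRing C] [NormedAlgebra ℂ C]

noncomputable instance instRingProj : Ring (ProjTensor B C) :=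
  inferInstanceAs (Ring (B ⊗[ℂ] C))

variable {B C}

theorem ptmul_mul (a a' : B) (b b' : C) : ptmul a b * ptmul a' b' = ptmul (a * a') (b * b') :=
  Algebra.TensorProduct.tmul_mul_tmul a a' b b'

theorem ptmul_mul_tensorSum (p : B × C) (m : List (B × C)) :
    ptmul p.1 p.2 * tensorSum m = tensorSum (m.map fun q => (p.1 * q.1, p.2 * q.2)) := by
  induction m with
  | nil => simp [tensorSum]
  | cons q m ih =>
    simp only [tensorSum, List.map_cons, List.sum_cons, mul_add] at ih ⊢
    rw [ih, ptmul_mul]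

theorem cost_mul_le (p : B × C) (m : List (B × C)) :
    cost (m.map fun q => (p.1 * q.1, p.2 * q.2)) ≤ ‖p.1‖ * ‖p.2‖ * cost m := by
  induction m with
  | nil => simp [cost]
  | cons q m ih =>
    simp only [cost, List.map_cons, List.sum_cons, mul_add] at ih ⊢
    refine add_le_add ?_ ih
    calc ‖p.1 * q.1‖ * ‖p.2 * q.2‖ ≤ (‖p.1‖ * ‖q.1‖) * (‖p.2‖ * ‖q.2‖) :=
          mul_le_mul (norm_mul_le _ _) (norm_mul_le _ _) (norm_nonneg _) (by positivity)
      _ = ‖p.1‖ * ‖p.2‖ * (‖q.1‖ * ‖q.2‖) := by ring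

theorem norm_tensorSum_mul_le (l m : List (B × C)) :
    ‖tensorSum l * tensorSum m‖ ≤ cost l * cost m := by
  induction l with
  | nil => simp [tensorSum, cost]
  | cons p l ih =>
    have h1 : tensorSum (p :: l) = ptmul p.1 p.2 + tensorSum l := by simp [tensorSum]
    have h2 : cost (p :: l) = ‖p.1‖ * ‖p.2‖ + cost l := by simp [cost]
    rw [h1, h2, add_mul, add_mul]
    refine (norm_add_le _ _).trans (add_le_add ?_ ih)
    rw [ptmul_mul_tensorSum]
    exact (norm_le_cost rfl).trans (cost_mul_le p m)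

theorem proj_norm_mul_le (u v : ProjTensor B C) : ‖u * v‖ ≤ ‖u‖ * ‖v‖ := by
  have key : ∀ ε : ℝ, 0 < ε → ‖u * v‖ ≤ (‖u‖ + ε) * (‖v‖ + ε) := by
    intro ε hε
    obtain ⟨l, hl, hlt⟩ := exists_cost_lt u hε
    obtain ⟨m, hm, hmt⟩ := exists_cost_lt v hε
    rw [← hl, ← hm]
    refine (norm_tensorSum_mul_le l m).trans ?_
    rw [hl, hm]
    exact mul_le_mul hlt.le hmt.le (cost_nonneg m) (by positivity)
  have hlim : Filter.Tendsto (fun ε : ℝ => (‖u‖ + ε) * (‖v‖ + ε)) (nhdsWithin 0 (Set.Ioi 0))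
      (nhds (‖u‖ * ‖v‖)) := by
    have : Filter.Tendsto (fun ε : ℝ => (‖u‖ + ε) * (‖v‖ + ε)) (nhds 0)
        (nhds ((‖u‖ + 0) * (‖v‖ + 0))) := by
      apply Continuous.tendsto
      fun_prop
    simp only [add_zero] at this
    exact this.mono_left nhdsWithin_le_nhds
  refine ge_of_tendsto hlim ?_
  filter_upwards [self_mem_nhdsWithin] with ε hε using key ε hε

noncomputable instance : SeminormedRing (ProjTensor B C) where
  __ := instRingProj B C
  __ := (inferInstance : SeminormedAddCommGroup (ProjTensor B C))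
  norm_mul_le := proj_norm_mul_le

end Alg

end Pool.Agent.Helper60.Diag
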